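import Mathlib

/-
Definitions for quantum extremal numbers.
A state of `n` qubits is a complex amplitude for each configuration `x : Fin n → ZMod 2`
(the two elements `0`, `1` of `ZMod 2` label the computational basis of a qubit).
-/

namespace Pool.Agent.MP_450e1b_mp

open Matrix

/-- The matrix `M_A` with entries `ψ(a, b)`, where `a` is a configuration on `A` and `b` is a
configuration on the complement of `A`. -/
def coeffMatrix {n : ℕ} (ψ : (Fin n → ZMod 2) → ℂ) (A : Finset (Fin n)) :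
    Matrix ({i // i ∈ A} → ZMod 2) ({i // i ∉ A} → ZMod 2) ℂ :=
  Matrix.of fun a b => ψ (fun i => if h : i ∈ A then a ⟨i, h⟩ else b ⟨i, h⟩)

/-- The reduced density matrix `ρ_A = M_A M_A^*`. -/
noncomputable def reduced {n : ℕ} (ψ : (Fin n → ZMod 2) → ℂ) (A : Finset (Fin n)) :
    Matrix ({i // i ∈ A} → ZMod 2) ({i // i ∈ A} → ZMod 2) ℂ :=
  coeffMatrix ψ A * (coeffMatrix ψ A)ᴴ

/-- `ψ` is maximally mixed on `A`: `ρ_A = 2^{-|A|} I`. -/
def MaxMixed {n : ℕ} (ψ : (Fin n → ZMod 2) → ℂ) (A : Finset (Fin n)) : Prop :=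
  reduced ψ A = ((2 : ℂ) ^ A.card)⁻¹ • (1 : Matrix _ _ ℂ)

/-- `m_k(ψ)`: the number of `k`-element sets on which `ψ` is maximally mixed. -/
noncomputable def mixedCount {n : ℕ} (ψ : (Fin n → ZMod 2) → ℂ) (k : ℕ) : ℕ :=
  Set.ncard {A : Finset (Fin n) | A.card = k ∧ MaxMixed ψ A}

/-- The quantum extremal number `Q_ex(n,k)`: the largest `m_k(ψ)` over normalised states `ψ`. -/
noncomputable def Qex (n k : ℕ) : ℕ :=
  sSup {m : ℕ | ∃ ψ : (Fin n → ZMod 2) → ℂ, ∑ x, ‖ψ x‖ ^ 2 = 1 ∧ m = mixedCount ψ k}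

end Pool.Agent.MP_450e1b_mp
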